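import Pool.Agent.Helper61.LF.Goals

set_option autoImplicit false

open Polynomial

namespace Pool.Agent.Helper36.LF.PSI

universe u

open Pool.Agent.Helper61.LF

/-- if `g ≠ 0` kills `e` then the powers of `τ` at `e` span a space of finite dimension -/
theorem fin_of_kill {k : Type u} [Field k] {P : Type u} [AddCommGroup P] [Module k P]
    (τ : P →ₗ[k] P) (e : P) (g : k[X]) (hg : g ≠ 0) (h : aeval τ g e = 0) :
    Module.Finite k (Submodule.span k (Set.range fun n : ℕ => (τ ^ n) e)) := by
  classical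
  let F : Set P := (fun i : ℕ => (τ ^ i) e) '' (Set.Iio g.natDegree)
  have hF : F.Finite := (Set.finite_Iio _).image _
  have hle : Submodule.span k (Set.range fun n : ℕ => (τ ^ n) e) ≤ Submodule.span k F := by
    rw [Submodule.span_le]
    rintro _ ⟨n, rfl⟩
    have h1 : (X ^ n : k[X]) = g * (X ^ n / g) + X ^ n % g := (EuclideanDomain.div_add_mod _ _).symm
    have h2 : (τ ^ n) e = aeval τ (X ^ n % g) e := by
      have h3 : aeval τ (X ^ n : k[X]) e = aeval τ (g * (X ^ n / g) + X ^ n % g) e := by rw [← h1]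
      rw [aeval_X_pow] at h3
      rw [h3, map_add, LinearMap.add_apply, mul_comm g, map_mul, Module.End.mul_apply, h, map_zero,
        zero_add]
    show (τ ^ n) e ∈ Submodule.span k F
    rw [h2, aeval_eq_sum_range, LinearMap.sum_apply]
    refine Submodule.sum_mem _ fun i hi => ?_
    rw [LinearMap.smul_apply]
    by_cases hc : (X ^ n % g).coeff i = 0
    · rw [hc, zero_smul]; exact Submodule.zero_mem _
    · refine Submodule.smul_mem _ _ (Submodule.subset_span ⟨i, ?_, rfl⟩)
      have hdeg : (X ^ n % g).degree < g.degree := Polynomial.degree_mod_lt _ hg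
      have hi' : (i : WithBot ℕ) ≤ (X ^ n % g).degree := Polynomial.le_degree_of_ne_zero hc
      have := lt_of_le_of_lt hi' hdeg
      rw [Polynomial.degree_eq_natDegree hg] at this
      exact_mod_cast this
  have : Module.Finite k (Submodule.span k F) := Module.Finite.span_of_finite k hF
  exact Module.Finite.of_injective (Submodule.inclusion hle) (Submodule.inclusion_injective hle)

theorem t : S_PSI.{u} := by
  intro k _ P _ _ τ e R _ hinf
  classical
  let o : P ≃ₗ[k] Module.AEval' τ := Module.AEval'.of τ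
  obtain ⟨S, hS⟩ : R.FG := Module.Finite.iff_fg.1 inferInstance
  let N' : Submodule k[X] (Module.AEval' τ) :=
    Submodule.span k[X] (insert (o e) (o '' (S : Set P)))
  have hfin : (insert (o e) (o '' (S : Set P))).Finite := (S.finite_toSet.image _).insert _
  have hN'fg : Module.Finite k[X] N' := Module.Finite.span_of_finite k[X] hfin
  have heN : o e ∈ N' := Submodule.subset_span (Set.mem_insert _ _)
  let T := Submodule.torsion k[X] N'
  have hfree : Module.Free k[X] (N' ⧸ T) := Module.free_of_finite_type_torsion_free'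
  have hne : (Submodule.Quotient.mk (⟨o e, heN⟩ : N') : N' ⧸ T) ≠ 0 := by
    intro h0
    rw [Submodule.Quotient.mk_eq_zero] at h0
    obtain ⟨a, ha⟩ := h0
    have ha0 : (a : k[X]) ≠ 0 := nonZeroDivisors.coe_ne_zero a
    have ha1 : (a : k[X]) • (o e) = 0 := by
      have := congrArg (fun x : N' => (x : Module.AEval' τ)) ha
      exact this
    refine hinf (fin_of_kill τ e (a : k[X]) ha0 ?_)
    have h2 : o (aeval τ (a : k[X]) e) = 0 := by
      have h3 := Module.AEval.of_aeval_smul (R := k) (M := P) (a := τ) (a : k[X]) e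
      exact h3.trans ha1
    exact (map_eq_zero_iff o o.injective).1 h2
  let b := Module.Free.chooseBasis k[X] (N' ⧸ T)
  obtain ⟨i, hi⟩ : ∃ i, b.repr (Submodule.Quotient.mk (⟨o e, heN⟩ : N')) i ≠ 0 := by
    by_contra hcon
    push Not at hcon
    apply hne
    have : b.repr (Submodule.Quotient.mk (⟨o e, heN⟩ : N')) = 0 := Finsupp.ext hcon
    exact (map_eq_zero_iff b.repr b.repr.injective).1 this
  let φ : N' →ₗ[k[X]] k[X] := (b.coord i) ∘ₗ T.mkQ
  let N : Submodule k P := (N'.restrictScalars k).comap o.toLinearMap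
  have hNmem : ∀ p : P, p ∈ N ↔ o p ∈ N' := fun p => Iff.rfl
  let ψ₀ : N →ₗ[k] k[X] :=
    { toFun := fun p => φ ⟨o p.1, (hNmem p.1).1 p.2⟩
      map_add' := by
        intro x y
        rw [← map_add]
        congr 1
      map_smul' := by
        intro c x
        have h1 : (⟨o (c • x).1, (hNmem (c • x).1).1 (c • x).2⟩ : N') =
            (C c : k[X]) • ⟨o x.1, (hNmem x.1).1 x.2⟩ := by
          refine Subtype.ext ?_
          show o (c • x.1) = (C c : k[X]) • o x.1
          rw [map_smul]
          exact (Module.AEval.C_smul (R := k) (M := P) (a := τ) c (o x.1)).symm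
        rw [h1, map_smul, RingHom.id_apply, smul_eq_mul, ← Polynomial.smul_eq_C_mul] }
  obtain ⟨ψ, hψ⟩ := LinearMap.exists_extend ψ₀
  have hψ' : ∀ (p : P) (hp : p ∈ N), ψ p = φ ⟨o p, (hNmem p).1 hp⟩ := by
    intro p hp
    have := LinearMap.congr_fun hψ ⟨p, hp⟩
    exact this
  have hτ : ∀ p ∈ N, τ p ∈ N := by
    intro p hp
    rw [hNmem]
    have h1 : o (τ p) = (X : k[X]) • o p := (Module.AEval'.X_smul_of (φ := τ) p).symm
    rw [h1]
    exact N'.smul_mem _ ((hNmem p).1 hp)
  have heN1 : e ∈ N := heN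
  refine ⟨N, ψ, heN1, ?_, hτ, ?_, ?_⟩
  · rw [← hS, Submodule.span_le]
    intro x hx
    have h1 : o x ∈ N' := Submodule.subset_span (Set.mem_insert_of_mem _ ⟨x, hx, rfl⟩)
    exact h1
  · intro p hp
    rw [hψ' _ (hτ p hp), hψ' p hp]
    have h1 : (⟨o (τ p), (hNmem _).1 (hτ p hp)⟩ : N') =
        (X : k[X]) • (⟨o p, (hNmem p).1 hp⟩ : N') := by
      refine Subtype.ext ?_
      exact (Module.AEval'.X_smul_of (φ := τ) p).symm
    rw [h1, map_smul, smul_eq_mul]
  · rw [hψ' e heN1]
    exact hi

end Pool.Agent.Helper36.LF.PSI
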